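import Pool.Agent.H19.LW.Ph

/-!
# Module Dim (about 90 lines): sets of integer vectors in a plane

Proofs. `dich`: if all cross products `a × b`, `a, b ∈ S`, vanish, take `a ∈ S` nonzero (if there is
none any `ν` will do) and `ν ≠ 0` orthogonal to `a`; every `b ∈ S` is a real multiple of `a`
(`a × b = 0`). Otherwise `ν = a × b ≠ 0` and `∑ ν i * c i = det (a, b, c) = 0` for `c ∈ S`.
`small`: apply `ph` to the vectors `(v 0/X, (v 0 α - v 1)/Y, (v 0 β - v 2)/Z)`, `v ∈ S` (the map is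
injective), with the normal vector `((ν 0 + ν 1 α + ν 2 β) X, - ν 1 Y, - ν 2 Z)`, which is not zero
(if `ν 1 = ν 2 = 0` then `ν 0 ≠ 0`); the difference of the two vectors of `S` is the `v`.
-/

set_option autoImplicit false

namespace Pool.Agent.H19.LW

/-- the box `|v 0| ≤ X`, `|v 0 α - v 1| ≤ Y`, `|v 0 β - v 2| ≤ Z` -/
def Box (α β X Y Z : ℝ) (v : Fin 3 → ℤ) : Prop :=
  |(v 0 : ℝ)| ≤ X ∧ |(v 0 : ℝ) * α - v 1| ≤ Y ∧ |(v 0 : ℝ) * β - v 2| ≤ Z

theorem dich (S : Finset (Fin 3 → ℤ))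
    (h : ∀ a ∈ S, ∀ b ∈ S, ∀ c ∈ S, Matrix.det (Matrix.of ![a, b, c]) = 0) :
    ∃ ν : Fin 3 → ℤ, ν ≠ 0 ∧ ∀ v ∈ S, ∑ i, ν i * v i = 0 := by
  have hdet : ∀ a ∈ S, ∀ b ∈ S, ∀ c ∈ S, a 0 * b 1 * c 2 - a 0 * b 2 * c 1 - a 1 * b 0 * c 2
      + a 1 * b 2 * c 0 + a 2 * b 0 * c 1 - a 2 * b 1 * c 0 = 0 := by
    intro a ha b hb c hc
    have h1 := h a ha b hb c hc
    rw [Matrix.det_fin_three] at h1
    exact h1
  by_cases hc : ∃ a ∈ S, ∃ b ∈ S,
      ¬ (a 1 * b 2 - a 2 * b 1 = 0 ∧ a 2 * b 0 - a 0 * b 2 = 0 ∧ a 0 * b 1 - a 1 * b 0 = 0)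
  · obtain ⟨a, ha, b, hb, hab⟩ := hc
    refine ⟨![a 1 * b 2 - a 2 * b 1, a 2 * b 0 - a 0 * b 2, a 0 * b 1 - a 1 * b 0], ?_, ?_⟩
    · intro h0
      apply hab
      have e0 := congrFun h0 0
      have e1 := congrFun h0 1
      have e2 := congrFun h0 2
      exact ⟨e0, e1, e2⟩
    · intro c hcS
      rw [Fin.sum_univ_three]
      show (a 1 * b 2 - a 2 * b 1) * c 0 + (a 2 * b 0 - a 0 * b 2) * c 1
        + (a 0 * b 1 - a 1 * b 0) * c 2 = 0
      linarith [hdet a ha b hb c hcS]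
  · push Not at hc
    by_cases hz : ∃ a ∈ S, a ≠ 0
    · obtain ⟨a, ha, ha0⟩ := hz
      by_cases h01 : a 0 = 0 ∧ a 1 = 0
      · have ha2 : a 2 ≠ 0 := by
          intro h2
          apply ha0
          funext i
          fin_cases i
          · exact h01.1
          · exact h01.2
          · exact h2
        refine ⟨![1, 0, 0], ?_, ?_⟩
        · intro h0
          have e0 := congrFun h0 0
          exact one_ne_zero (α := ℤ) e0
        · intro b hb
          have h1 := (hc a ha b hb).2.1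
          rw [h01.1] at h1
          have h2 : a 2 * b 0 = 0 := by linarith
          have h3 : b 0 = 0 := (mul_eq_zero.1 h2).resolve_left ha2
          rw [Fin.sum_univ_three]
          show (1 : ℤ) * b 0 + 0 * b 1 + 0 * b 2 = 0
          rw [h3]
          ring
      · refine ⟨![- a 1, a 0, 0], ?_, ?_⟩
        · intro h0
          apply h01
          have e0 := congrFun h0 0
          have e1 := congrFun h0 1
          refine ⟨e1, ?_⟩
          have e0' : - a 1 = 0 := e0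
          linarith
        · intro b hb
          have h1 := (hc a ha b hb).2.2
          rw [Fin.sum_univ_three]
          show (- a 1) * b 0 + a 0 * b 1 + 0 * b 2 = 0
          linarith
    · push Not at hz
      refine ⟨![1, 0, 0], ?_, ?_⟩
      · intro h0
        have e0 := congrFun h0 0
        exact one_ne_zero (α := ℤ) e0
      · intro b hb
        rw [hz b hb]
        simp

theorem small (α β X Y Z : ℝ) (hX : 0 < X) (hY : 0 < Y) (hZ : 0 < Z) (S : Finset (Fin 3 → ℤ))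
    (h : ∀ v ∈ S, Box α β X Y Z v) (ν : Fin 3 → ℤ) (hν : ν ≠ 0)
    (hp : ∀ v ∈ S, ∑ i, ν i * v i = 0) (hN : 2 ≤ S.card) :
    ∃ v : Fin 3 → ℤ, v ≠ 0 ∧ Box α β (8 / √(S.card : ℝ) * X) (8 / √(S.card : ℝ) * Y)
      (8 / √(S.card : ℝ) * Z) v := by
  classical
  set f : (Fin 3 → ℤ) → (Fin 3 → ℝ) :=
    fun v => ![(v 0 : ℝ) / X, ((v 0 : ℝ) * α - v 1) / Y, ((v 0 : ℝ) * β - v 2) / Z] with hf
  have f0 : ∀ v, f v 0 = (v 0 : ℝ) / X := fun v => rfl
  have f1 : ∀ v, f v 1 = ((v 0 : ℝ) * α - v 1) / Y := fun v => rfl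
  have f2 : ∀ v, f v 2 = ((v 0 : ℝ) * β - v 2) / Z := fun v => rfl
  have hinj : Function.Injective f := by
    intro a b hab
    have e0 := congrFun hab 0
    have e1 := congrFun hab 1
    have e2 := congrFun hab 2
    rw [f0, f0, div_left_inj' hX.ne'] at e0
    rw [f1, f1, div_left_inj' hY.ne', e0] at e1
    rw [f2, f2, div_left_inj' hZ.ne', e0] at e2
    have e1' : (a 1 : ℝ) = b 1 := by linarith
    have e2' : (a 2 : ℝ) = b 2 := by linarith
    funext i
    fin_cases i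
    · exact_mod_cast e0
    · exact_mod_cast e1'
    · exact_mod_cast e2'
  have hcard : (S.image f).card = S.card := Finset.card_image_of_injective S hinj
  have hle : ∀ u ∈ S.image f, ∀ i, |u i| ≤ 1 := by
    intro u hu i
    obtain ⟨v, hv, rfl⟩ := Finset.mem_image.1 hu
    obtain ⟨b0, b1, b2⟩ := h v hv
    fin_cases i
    · show |f v 0| ≤ 1
      rw [f0, abs_div, abs_of_pos hX, div_le_one hX]
      exact b0
    · show |f v 1| ≤ 1
      rw [f1, abs_div, abs_of_pos hY, div_le_one hY]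
      exact b1
    · show |f v 2| ≤ 1
      rw [f2, abs_div, abs_of_pos hZ, div_le_one hZ]
      exact b2
  set μ : Fin 3 → ℝ := ![((ν 0 : ℝ) + ν 1 * α + ν 2 * β) * X, - (ν 1 : ℝ) * Y, - (ν 2 : ℝ) * Z] with hμ
  have hμ0 : μ ≠ 0 := by
    intro h0
    have e0 : ((ν 0 : ℝ) + ν 1 * α + ν 2 * β) * X = 0 := congrFun h0 0
    have e1 : - (ν 1 : ℝ) * Y = 0 := congrFun h0 1
    have e2 : - (ν 2 : ℝ) * Z = 0 := congrFun h0 2
    have n1 : (ν 1 : ℝ) = 0 := by
      have := (mul_eq_zero.1 e1).resolve_right hY.ne'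
      linarith
    have n2 : (ν 2 : ℝ) = 0 := by
      have := (mul_eq_zero.1 e2).resolve_right hZ.ne'
      linarith
    have n0 : (ν 0 : ℝ) = 0 := by
      have := (mul_eq_zero.1 e0).resolve_right hX.ne'
      rw [n1, n2] at this
      linarith
    apply hν
    funext i
    fin_cases i
    · exact_mod_cast n0
    · exact_mod_cast n1
    · exact_mod_cast n2
  have horth : ∀ u ∈ S.image f, ∑ i, μ i * u i = 0 := by
    intro u hu
    obtain ⟨v, hv, rfl⟩ := Finset.mem_image.1 hu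
    have h1 := hp v hv
    rw [Fin.sum_univ_three] at h1
    have h2 : (ν 0 : ℝ) * v 0 + ν 1 * v 1 + ν 2 * v 2 = 0 := by exact_mod_cast h1
    rw [Fin.sum_univ_three, f0, f1, f2]
    show ((ν 0 : ℝ) + ν 1 * α + ν 2 * β) * X * ((v 0 : ℝ) / X)
      + - (ν 1 : ℝ) * Y * (((v 0 : ℝ) * α - v 1) / Y)
      + - (ν 2 : ℝ) * Z * (((v 0 : ℝ) * β - v 2) / Z) = 0
    have e0 : ((ν 0 : ℝ) + ν 1 * α + ν 2 * β) * X * ((v 0 : ℝ) / X)
        = ((ν 0 : ℝ) + ν 1 * α + ν 2 * β) * v 0 := by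
      rw [mul_assoc, mul_div_cancel₀ _ hX.ne']
    have e1 : - (ν 1 : ℝ) * Y * (((v 0 : ℝ) * α - v 1) / Y)
        = - (ν 1 : ℝ) * ((v 0 : ℝ) * α - v 1) := by
      rw [mul_assoc, mul_div_cancel₀ _ hY.ne']
    have e2 : - (ν 2 : ℝ) * Z * (((v 0 : ℝ) * β - v 2) / Z)
        = - (ν 2 : ℝ) * ((v 0 : ℝ) * β - v 2) := by
      rw [mul_assoc, mul_div_cancel₀ _ hZ.ne']
    rw [e0, e1, e2]
    linear_combination h2
  obtain ⟨u, hu, v, hv, huv, hd⟩ := ph (S.image f) hle μ hμ0 horth (by rw [hcard]; exact hN)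
  obtain ⟨a, ha, rfl⟩ := Finset.mem_image.1 hu
  obtain ⟨b, hb, rfl⟩ := Finset.mem_image.1 hv
  rw [hcard] at hd
  refine ⟨a - b, ?_, ?_, ?_, ?_⟩
  · intro h0
    apply huv
    rw [sub_eq_zero.1 h0]
  · have h1 := hd 0
    rw [f0, f0, ← sub_div, abs_div, abs_of_pos hX, div_le_iff₀ hX] at h1
    simpa using h1
  · have h1 := hd 1
    rw [f1, f1, ← sub_div, abs_div, abs_of_pos hY, div_le_iff₀ hY] at h1
    refine le_of_eq_of_le ?_ h1
    congr 1
    simp only [Pi.sub_apply, Int.cast_sub]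
    ring
  · have h1 := hd 2
    rw [f2, f2, ← sub_div, abs_div, abs_of_pos hZ, div_le_iff₀ hZ] at h1
    refine le_of_eq_of_le ?_ h1
    congr 1
    simp only [Pi.sub_apply, Int.cast_sub]
    ring

end Pool.Agent.H19.LW
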