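import Pool.Agent.H19.LW.Dim

/-!
# Module Rk3 (about 150 lines): the count of integer vectors in a box, rank three

Proof. Let `D = |det (a,b,c)| ≥ 1` and `F = {s a + t b + u c : s, t, u ∈ [0,1)} ⊆ ℝ³`, a set of
volume `D`. For every `x ∈ ℝ³` the set `{v ∈ ℤ³ : x - v ∈ F}` has at most `D` elements: two of them
that are congruent modulo the subgroup `L = ℤa + ℤb + ℤc` are equal (a combination of `a, b, c` with
integer coefficients of absolute value `< 1`), and `ℤ³/L` has `D` elements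
(`AddSubgroup.relIndex_eq_natAbs_det`, `Int`-lattice index = determinant; or the Smith normal form
lemmas of Mathlib.LinearAlgebra.FreeModule.Int). The linear map
`φ x = (x 0, x 0 α - x 1, x 0 β - x 2)` has determinant 1. Let
`B = {x : |x 0| ≤ 4X, |x 0 α - x 1| ≤ 4Y, |x 0 β - x 2| ≤ 4Z}`, of volume `512 X Y Z`. For `v ∈ S` and
`f ∈ F`: `v + f ∈ B`. Hence
`N D = ∑_{v ∈ S} vol (v + F) = ∫_B #{v ∈ S : x ∈ v + F} dx ≤ D vol B`, so `N ≤ 512 X Y Z`.
(Alternative without the index: `ZSpan.fundamentalDomain`, `ZLattice.covolume`; any proof will do,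
also with a worse constant than 512 if this is easier: then tell helper19.)
-/

set_option autoImplicit false

namespace Pool.Agent.H19.LW

open MeasureTheory Module

/-- the big box -/
def Rk3_B (α β X Y Z : ℝ) : Set (Fin 3 → ℝ) :=
  {x | |x 0| ≤ 4 * X ∧ |x 0 * α - x 1| ≤ 4 * Y ∧ |x 0 * β - x 2| ≤ 4 * Z}

theorem Rk3_vol (α β X Y Z : ℝ) (hX : 0 < X) (hY : 0 < Y) (hZ : 0 < Z) :
    volume (Rk3_B α β X Y Z) = ENNReal.ofReal (512 * (X * Y * Z)) := by
  have hB : Rk3_B α β X Y Z = (Matrix.toLin' !![1, 0, 0; α, -1, 0; β, 0, -1]) ⁻¹'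
      Set.Icc ![-(4 * X), -(4 * Y), -(4 * Z)] ![4 * X, 4 * Y, 4 * Z] := by
    ext x
    simp only [Rk3_B, Set.mem_ofPred_eq, Set.mem_preimage, Set.mem_Icc, Pi.le_def,
      Fin.forall_fin_succ, Matrix.toLin'_apply, Matrix.mulVec, dotProduct, Fin.sum_univ_three,
      abs_le]
    simp
    constructor
    · rintro ⟨⟨a, b⟩, ⟨c, d⟩, e, f⟩
      refine ⟨⟨?_, ?_, ?_⟩, ?_, ?_, ?_⟩ <;> linarith
    · rintro ⟨⟨a, b, c⟩, d, e, f⟩
      refine ⟨⟨?_, ?_⟩, ⟨?_, ?_⟩, ?_, ?_⟩ <;> linarith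
  have hdet : LinearMap.det (Matrix.toLin' !![1, 0, 0; α, -1, 0; β, 0, -1]) = 1 := by
    rw [LinearMap.det_toLin', Matrix.det_fin_three]
    simp
  rw [hB, Measure.addHaar_preimage_linearMap _ (by rw [hdet]; exact one_ne_zero), hdet,
    Real.volume_Icc_pi, Fin.prod_univ_three]
  simp only [inv_one, abs_one, ENNReal.ofReal_one, one_mul]
  have e0 : (![4 * X, 4 * Y, 4 * Z] : Fin 3 → ℝ) 0 -
      (![-(4 * X), -(4 * Y), -(4 * Z)] : Fin 3 → ℝ) 0 = 8 * X := by
    simp
    ring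
  have e1 : (![4 * X, 4 * Y, 4 * Z] : Fin 3 → ℝ) 1 -
      (![-(4 * X), -(4 * Y), -(4 * Z)] : Fin 3 → ℝ) 1 = 8 * Y := by
    simp
    ring
  have e2 : (![4 * X, 4 * Y, 4 * Z] : Fin 3 → ℝ) 2 -
      (![-(4 * X), -(4 * Y), -(4 * Z)] : Fin 3 → ℝ) 2 = 8 * Z := by
    simp
    ring
  rw [e0, e1, e2, ← ENNReal.ofReal_mul (by positivity), ← ENNReal.ofReal_mul (by positivity)]
  congr 1
  ring

theorem Rk3_index (w : Fin 3 → Fin 3 → ℤ) (hw : Matrix.det (Matrix.of w) ≠ 0) :
    Nat.card ((Fin 3 → ℤ) ⧸ Submodule.span ℤ (Set.range w)) =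
      (Matrix.det (Matrix.of w)).natAbs := by
  have hli : LinearIndependent ℤ w :=
    Matrix.linearIndependent_rows_of_det_ne_zero (A := Matrix.of w) hw
  rw [← Submodule.natAbs_det_basis_change (Pi.basisFun ℤ (Fin 3))
    (Submodule.span ℤ (Set.range w)) (Basis.span hli), Pi.basisFun_det_apply]
  congr 2
  ext i j
  simp [Basis.span_apply]

/-- integer vectors as real vectors -/
def Rk3_c (v : Fin 3 → ℤ) : Fin 3 → ℝ := fun i => (v i : ℝ)

theorem rk3 (α β X Y Z : ℝ) (hX : 0 < X) (hY : 0 < Y) (hZ : 0 < Z) (S : Finset (Fin 3 → ℤ))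
    (h : ∀ v ∈ S, Box α β X Y Z v) (a b c : Fin 3 → ℤ) (ha : a ∈ S) (hb : b ∈ S) (hc : c ∈ S)
    (hdet : Matrix.det (Matrix.of ![a, b, c]) ≠ 0) : (S.card : ℝ) ≤ 512 * (X * Y * Z) := by
  classical
  set w : Fin 3 → Fin 3 → ℤ := ![a, b, c] with hw
  set L := Submodule.span ℤ (Set.range w) with hL
  have hdR : Matrix.det (Matrix.of fun i => Rk3_c (w i)) = ((Matrix.det (Matrix.of w) : ℤ) : ℝ) := by
    rw [Matrix.det_fin_three, Matrix.det_fin_three]
    simp [Rk3_c]
  have hdR0 : Matrix.det (Matrix.of fun i => Rk3_c (w i)) ≠ 0 := by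
    rw [hdR]
    exact_mod_cast hdet
  have hli : LinearIndependent ℝ (fun i => Rk3_c (w i)) :=
    Matrix.linearIndependent_rows_of_det_ne_zero (A := Matrix.of fun i => Rk3_c (w i)) hdR0
  let bR : Basis (Fin 3) ℝ (Fin 3 → ℝ) :=
    basisOfLinearIndependentOfCardEqFinrank hli (by simp)
  have hbR : ⇑bR = fun i => Rk3_c (w i) := coe_basisOfLinearIndependentOfCardEqFinrank _ _
  set F := ZSpan.fundamentalDomain bR with hF
  have hFm : MeasurableSet F := ZSpan.fundamentalDomain_measurableSet bR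
  have hFv : volume F = ENNReal.ofReal |((Matrix.det (Matrix.of w) : ℤ) : ℝ)| := by
    rw [hF, ZSpan.volume_fundamentalDomain, hbR, hdR]
  let A : (Fin 3 → ℤ) → Set (Fin 3 → ℝ) := fun v => (fun x => x + (-Rk3_c v)) ⁻¹' F
  have hAm : ∀ v, MeasurableSet (A v) := fun v => hFm.preimage (measurable_add_const _)
  have hAv : ∀ v, volume (A v) = volume F := fun v => measure_preimage_add_right _ _ _
  have hbox : ∀ i, Box α β X Y Z (w i) := by
    intro i
    fin_cases i
    · exact h a ha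
    · exact h b hb
    · exact h c hc
  have hAB : ∀ v ∈ S, A v ⊆ Rk3_B α β X Y Z := by
    intro v hv x hx
    have hx1 : x + (-Rk3_c v) ∈ F := hx
    rw [hF, ZSpan.mem_fundamentalDomain] at hx1
    have hx2 : x + (-Rk3_c v) = ∑ i, bR.repr (x + (-Rk3_c v)) i • Rk3_c (w i) := by
      conv_lhs => rw [← bR.sum_repr (x + (-Rk3_c v))]
      rw [hbR]
    set s := fun i => bR.repr (x + (-Rk3_c v)) i with hs
    have hx3 : ∀ j, x j = (v j : ℝ) + (s 0 * (w 0 j : ℝ) + s 1 * (w 1 j : ℝ) +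
        s 2 * (w 2 j : ℝ)) := by
      intro j
      have h1 := congrFun hx2 j
      simp only [Pi.add_apply, Pi.neg_apply, Finset.sum_apply, Pi.smul_apply, smul_eq_mul,
        Fin.sum_univ_three, Rk3_c] at h1
      linarith
    have key : ∀ (t : Fin 3 → ℝ) (y R : ℝ), 0 ≤ R → |y| ≤ R → (∀ i, |t i| ≤ R) →
        |y + (s 0 * t 0 + s 1 * t 1 + s 2 * t 2)| ≤ 4 * R := by
      intro t y R hR hy ht
      have h1 : ∀ i, |s i * t i| ≤ R := by
        intro i
        rw [abs_mul]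
        have h2 := hx1 i
        rw [Set.mem_Ico] at h2
        have h3 : |s i| ≤ 1 := abs_le.mpr ⟨by linarith [h2.1], h2.2.le⟩
        calc |s i| * |t i| ≤ 1 * R := mul_le_mul h3 (ht i) (abs_nonneg _) zero_le_one
          _ = R := one_mul R
      calc |y + (s 0 * t 0 + s 1 * t 1 + s 2 * t 2)|
          ≤ |y| + |s 0 * t 0 + s 1 * t 1 + s 2 * t 2| := abs_add_le _ _
        _ ≤ |y| + (|s 0 * t 0 + s 1 * t 1| + |s 2 * t 2|) := by
            linarith [abs_add_le (s 0 * t 0 + s 1 * t 1) (s 2 * t 2)]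
        _ ≤ |y| + (|s 0 * t 0| + |s 1 * t 1| + |s 2 * t 2|) := by
            linarith [abs_add_le (s 0 * t 0) (s 1 * t 1)]
        _ ≤ 4 * R := by linarith [h1 0, h1 1, h1 2]
    refine ⟨?_, ?_, ?_⟩
    · have h1 := key (fun i => (w i 0 : ℝ)) (v 0) X hX.le (h v hv).1 fun i => (hbox i).1
      rw [hx3 0]
      exact h1
    · have h1 := key (fun i => (w i 0 : ℝ) * α - w i 1) (v 0 * α - v 1) Y hY.le (h v hv).2.1
        fun i => (hbox i).2.1
      rw [hx3 0, hx3 1]
      refine le_of_eq_of_le ?_ h1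
      congr 1
      ring
    · have h1 := key (fun i => (w i 0 : ℝ) * β - w i 2) (v 0 * β - v 2) Z hZ.le (h v hv).2.2
        fun i => (hbox i).2.2
      rw [hx3 0, hx3 2]
      refine le_of_eq_of_le ?_ h1
      congr 1
      ring
  have hdisj : ∀ v v' : Fin 3 → ℤ, v ≠ v' → v - v' ∈ L → Disjoint (A v) (A v') := by
    intro v v' hne hvL
    rw [Set.disjoint_left]
    intro x hx hx'
    apply hne
    have hx1 : x + (-Rk3_c v) ∈ F := hx
    have hx2 : x + (-Rk3_c v') ∈ F := hx'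
    have hy : Rk3_c (v - v') ∈ Submodule.span ℤ (Set.range bR) := by
      rw [hbR]
      rw [hL] at hvL
      have h1 : Submodule.map ((Int.castAddHom ℝ).toIntLinearMap.compLeft (Fin 3))
          (Submodule.span ℤ (Set.range w)) ≤ Submodule.span ℤ (Set.range fun i => Rk3_c (w i)) := by
        rw [Submodule.map_span, Submodule.span_le]
        rintro _ ⟨_, ⟨i, rfl⟩, rfl⟩
        apply Submodule.subset_span
        exact ⟨i, rfl⟩
      exact h1 ⟨v - v', hvL, rfl⟩
    have e0 : (0 : Submodule.span ℤ (Set.range bR)) +ᵥ (x + (-Rk3_c v)) ∈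
        ZSpan.fundamentalDomain bR := by
      rw [zero_vadd]
      exact hx1
    have e1 : (⟨Rk3_c (v - v'), hy⟩ : Submodule.span ℤ (Set.range bR)) +ᵥ (x + (-Rk3_c v)) ∈
        ZSpan.fundamentalDomain bR := by
      have h2 : (⟨Rk3_c (v - v'), hy⟩ : Submodule.span ℤ (Set.range bR)) +ᵥ (x + (-Rk3_c v)) =
          x + (-Rk3_c v') := by
        rw [Submodule.vadd_def, vadd_eq_add]
        funext j
        simp only [Rk3_c, Pi.add_apply, Pi.neg_apply, Pi.sub_apply]
        push_cast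
        ring
      rw [h2]
      exact hx2
    rw [ZSpan.vadd_mem_fundamentalDomain] at e0 e1
    have h3 : Rk3_c (v - v') = 0 := congrArg Subtype.val (e1.trans e0.symm)
    funext j
    have h4 := congrFun h3 j
    simp only [Rk3_c, Pi.sub_apply, Pi.zero_apply] at h4
    have h5 : v j - v' j = 0 := by exact_mod_cast h4
    omega
  have hcard := Rk3_index w hdet
  have hpos : 0 < (Matrix.det (Matrix.of w)).natAbs := Int.natAbs_pos.mpr hdet
  have : Finite ((Fin 3 → ℤ) ⧸ L) := Nat.finite_of_card_ne_zero (by rw [hcard]; exact hpos.ne')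
  have := Fintype.ofFinite ((Fin 3 → ℤ) ⧸ L)
  set D : ℝ := |((Matrix.det (Matrix.of w) : ℤ) : ℝ)| with hD
  have hD0 : 0 < D := abs_pos.mpr (by exact_mod_cast hdet)
  have hfib : ∀ q : (Fin 3 → ℤ) ⧸ L,
      (((S.filter fun v => L.mkQ v = q).card : ℕ) : ℝ) * D ≤ 512 * (X * Y * Z) := by
    intro q
    set T := S.filter fun v => L.mkQ v = q with hT
    have h1 : volume (⋃ v ∈ T, A v) = ∑ v ∈ T, volume (A v) := by
      refine measure_biUnion_finset ?_ fun v _ => hAm v
      intro v hv v' hv' hne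
      apply hdisj v v' hne
      have e1 := (Finset.mem_filter.mp hv).2
      have e2 := (Finset.mem_filter.mp hv').2
      rw [← Submodule.Quotient.eq L]
      exact e1.trans e2.symm
    have h2 : volume (⋃ v ∈ T, A v) ≤ volume (Rk3_B α β X Y Z) := by
      refine measure_mono ?_
      intro x hx
      simp only [Set.mem_iUnion] at hx
      obtain ⟨v, hv, hx⟩ := hx
      exact hAB v (Finset.mem_filter.mp hv).1 hx
    rw [h1, Rk3_vol α β X Y Z hX hY hZ] at h2
    simp only [hAv, hFv] at h2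
    rw [Finset.sum_const, nsmul_eq_mul, ← ENNReal.ofReal_natCast,
      ← ENNReal.ofReal_mul (Nat.cast_nonneg _)] at h2
    exact (ENNReal.ofReal_le_ofReal_iff (by positivity)).mp h2
  have hsum : (S.card : ℝ) * D ≤ D * (512 * (X * Y * Z)) := by
    have h1 : S.card = ∑ q : (Fin 3 → ℤ) ⧸ L, (S.filter fun v => L.mkQ v = q).card :=
      Finset.card_eq_sum_card_fiberwise (fun _ _ => Finset.mem_coe.mpr (Finset.mem_univ _))
    have h2 : (Fintype.card ((Fin 3 → ℤ) ⧸ L) : ℝ) = D := by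
      rw [← Nat.card_eq_fintype_card, hcard, hD, Nat.cast_natAbs]
      push_cast
      rfl
    rw [h1]
    push_cast
    rw [Finset.sum_mul]
    calc ∑ q : (Fin 3 → ℤ) ⧸ L, (((S.filter fun v => L.mkQ v = q).card : ℕ) : ℝ) * D
        ≤ ∑ _q : (Fin 3 → ℤ) ⧸ L, 512 * (X * Y * Z) := Finset.sum_le_sum fun q _ => hfib q
      _ = D * (512 * (X * Y * Z)) := by
          rw [Finset.sum_const, Finset.card_univ, nsmul_eq_mul, h2]
  have := mul_comm D (512 * (X * Y * Z))
  rw [this] at hsum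
  exact le_of_mul_le_mul_right hsum hD0

end Pool.Agent.H19.LW
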