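import Mathlib

/-!
# Module DimH (about 150 lines): Hausdorff dimension one from robustness

Proof. `dimH S ≤ 1` for every `S ⊆ ℝ` (`Real.dimH_univ`, `dimH_mono`). Suppose `dimH S < 1`; choose
`s` with `dimH S < s < 1`, `0 < s`, so `μH[s] S = 0` (`hausdorffMeasure_of_dimH_lt`). Let `g` with
`2^s < g < 2`, and `ζ` from `H`. Since `μH[s] S = 0` there is for every `c > 0` a cover
`S ⊆ ⋃ t n` by sets of diameter `≤ 1/2` with `∑ diam (t n)^s < c`; choose `c` small. Empty `t n` are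
ignored. To a `t n` of diameter `d > 0` attach the level `m ≥ 1` with `2^(-m) ≥ d > 2^(-m-1)` and the
at most 3 indices `a ∈ ℕ` of level `m` whose closed interval meets `t n ∩ [0,∞)`; if the diameter is
`0` attach the level `M₁ + n` (`M₁` large) in the same way (at most 2 indices). `E M` = all indices of
level `M` attached, `E 0 = ∅`: the number of `n` with level `m` and positive diameter is at most
`c 2^(s(m+1))`, so `card (E M) ≤ 3 c 2^(s(M+1)) + 3·[M ≥ M₁] ≤ ζ g^(M-1)` for all `M ≥ 1` if `c` is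
small and `M₁` large. The `β ∈ S` of `H` has `β ≥ 0` and lies in some `t n`, hence in a closed
interval of `E`, a contradiction.
(Mathlib: `MeasureTheory.Measure.hausdorffMeasure_apply`, `ENNReal` infimum over covers and `tsum`.)
-/

set_option autoImplicit false

namespace Pool.Agent.H19.LW

open MeasureTheory MeasureTheory.Measure
open scoped ENNReal NNReal

private theorem dimH_loc (x y : ℝ) (m : ℕ) (hy : 0 ≤ y) (hx : 0 ≤ x)
    (h : |y - x| ≤ 1 / 2 ^ m) :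
    ∃ a ∈ ({⌊x * 2 ^ m⌋₊ - 1, ⌊x * 2 ^ m⌋₊, ⌊x * 2 ^ m⌋₊ + 1} : Finset ℕ),
      (a : ℝ) / 2 ^ m ≤ y ∧ y ≤ (a + 1) / 2 ^ m := by
  have h2 : (0 : ℝ) < 2 ^ m := by positivity
  obtain ⟨k, hk⟩ : ∃ k, ⌊x * 2 ^ m⌋₊ = k := ⟨_, rfl⟩
  have k1 : (k : ℝ) ≤ x * 2 ^ m := by
    rw [← hk]
    exact Nat.floor_le (by positivity)
  have k2 : x * 2 ^ m < k + 1 := by
    rw [← hk]
    exact Nat.lt_floor_add_one _
  have h3 : |y * 2 ^ m - x * 2 ^ m| ≤ 1 := by
    rw [← sub_mul, abs_mul, abs_of_pos h2]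
    rwa [le_div_iff₀ h2] at h
  have h4 := abs_le.1 h3
  rw [hk]
  rcases lt_or_ge (y * 2 ^ m) k with c1 | c1
  · have kp : 1 ≤ k := by
      by_contra hc
      have h0 : k = 0 := by omega
      rw [h0, Nat.cast_zero] at c1
      have := mul_nonneg hy h2.le
      linarith
    refine ⟨k - 1, by simp, ?_, ?_⟩
    · rw [div_le_iff₀ h2, Nat.cast_sub kp]
      push_cast
      linarith
    · rw [le_div_iff₀ h2, Nat.cast_sub kp]
      push_cast
      linarith
  · rcases le_or_gt (y * 2 ^ m) (k + 1) with c2 | c2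
    · refine ⟨k, by simp, ?_, ?_⟩
      · rw [div_le_iff₀ h2]
        exact c1
      · rw [le_div_iff₀ h2]
        exact c2
    · refine ⟨k + 1, by simp, ?_, ?_⟩
      · rw [div_le_iff₀ h2]
        push_cast
        linarith
      · rw [le_div_iff₀ h2]
        push_cast
        linarith

/-- a cover with small weights -/
private theorem dimH_cov (S : Set ℝ) (s : ℝ≥0) (h : dimH S < s) (c : ℝ) (hc : 0 < c) :
    ∃ (t : ℕ → Set ℝ) (w : ℕ → ℝ), S ⊆ ⋃ n, t n ∧ (∀ n, 0 < w n) ∧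
      (∀ F : Finset ℕ, ∑ n ∈ F, w n ≤ c) ∧
      ∀ n, ∀ x ∈ t n, ∀ y ∈ t n, |y - x| ^ (s : ℝ) ≤ w n := by
  have hs : (0 : ℝ) < s := by
    have : (0 : ℝ≥0∞) < s := lt_of_le_of_lt zero_le h
    exact_mod_cast this
  have hμ := hausdorffMeasure_of_dimH_lt h
  rw [hausdorffMeasure_apply] at hμ
  have hc2 : (0 : ℝ≥0∞) < ENNReal.ofReal (c / 2) := ENNReal.ofReal_pos.2 (by linarith)
  have h1 : ⨅ (t : ℕ → Set ℝ) (_ : S ⊆ ⋃ n, t n) (_ : ∀ n, Metric.ediam (t n) ≤ 1),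
      ∑' n, ⨆ _ : (t n).Nonempty, Metric.ediam (t n) ^ (s : ℝ) < ENNReal.ofReal (c / 2) := by
    refine lt_of_le_of_lt ?_ hc2
    rw [← hμ]
    exact le_iSup₂_of_le 1 one_pos le_rfl
  simp only [iInf_lt_iff] at h1
  obtain ⟨t, ht, -, hsum⟩ := h1
  obtain ⟨η, hη, hηs⟩ := ENNReal.exists_pos_sum_of_countable' hc2.ne' ℕ
  obtain ⟨W, hW⟩ : ∃ W : ℕ → ℝ≥0∞, ∀ n, W n = (⨆ _ : (t n).Nonempty,
    Metric.ediam (t n) ^ (s : ℝ)) + η n := ⟨_, fun _ => rfl⟩
  have hWs : ∑' n, W n < ENNReal.ofReal c := by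
    have e : ∑' n, W n = (∑' n, ⨆ _ : (t n).Nonempty, Metric.ediam (t n) ^ (s : ℝ))
        + ∑' n, η n := by
      rw [← ENNReal.tsum_add]
      exact tsum_congr hW
    rw [e]
    have e2 : ENNReal.ofReal c = ENNReal.ofReal (c / 2) + ENNReal.ofReal (c / 2) := by
      rw [← ENNReal.ofReal_add (by linarith) (by linarith)]
      congr 1
      ring
    rw [e2]
    exact ENNReal.add_lt_add hsum hηs
  have hWF : ∀ F : Finset ℕ, ∑ n ∈ F, W n ≤ ENNReal.ofReal c :=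
    fun F => (ENNReal.sum_le_tsum F).trans hWs.le
  have hWn : ∀ n, W n ≠ ⊤ := by
    intro n
    have := hWF {n}
    rw [Finset.sum_singleton] at this
    exact ne_top_of_le_ne_top ENNReal.ofReal_ne_top this
  refine ⟨t, fun n => (W n).toReal, ht, ?_, ?_, ?_⟩
  · intro n
    refine ENNReal.toReal_pos ?_ (hWn n)
    rw [hW]
    exact (lt_of_lt_of_le (hη n) le_add_self).ne'
  · intro F
    rw [← ENNReal.toReal_sum (fun n _ => hWn n)]
    have := ENNReal.toReal_mono ENNReal.ofReal_ne_top (hWF F)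
    rwa [ENNReal.toReal_ofReal hc.le] at this
  · intro n x hx y hy
    have hne : (t n).Nonempty := ⟨x, hx⟩
    have h2 : ENNReal.ofReal (|y - x| ^ (s : ℝ)) ≤ W n := by
      rw [hW, ← ENNReal.ofReal_rpow_of_nonneg (abs_nonneg _) hs.le]
      refine le_trans ?_ le_self_add
      refine le_iSup_of_le hne ?_
      refine ENNReal.rpow_le_rpow ?_ hs.le
      rw [← Real.dist_eq, ← edist_dist]
      exact Metric.edist_le_ediam_of_mem hy hx
    have h3 := ENNReal.toReal_mono (hWn n) h2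
    rwa [ENNReal.toReal_ofReal (Real.rpow_nonneg (abs_nonneg _) _)] at h3

theorem dim_one (S : Set ℝ)
    (H : ∀ g : ℝ, 0 < g → g < 2 → ∃ ζ > 0, ∀ E : ℕ → Finset ℕ, E 0 = ∅ →
      (∀ M, 1 ≤ M → ((E M).card : ℝ) ≤ ζ * g ^ (M - 1)) →
        ∃ β : ℝ, β ∈ S ∧ 0 ≤ β ∧ β ≤ 1 ∧
          ∀ M, ∀ a ∈ E M, ¬ ((a : ℝ) / 2 ^ M ≤ β ∧ β ≤ (a + 1) / 2 ^ M)) :
    dimH S = 1 := by
  apply le_antisymm
  · calc dimH S ≤ dimH (Set.univ : Set ℝ) := dimH_mono (Set.subset_univ S)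
      _ = 1 := Real.dimH_univ
  by_contra hlt
  rw [not_le] at hlt
  obtain ⟨s, hs1, hs2⟩ := ENNReal.lt_iff_exists_nnreal_btwn.1 hlt
  have hs0 : (0 : ℝ) < s := by
    have : (0 : ℝ≥0∞) < s := lt_of_le_of_lt zero_le hs1
    exact_mod_cast this
  have hs3 : (s : ℝ) < 1 := by exact_mod_cast hs2
  obtain ⟨b, hb⟩ : ∃ b : ℝ, b = 2 ^ (s : ℝ) := ⟨_, rfl⟩
  have b1 : 1 < b := by
    rw [hb]
    exact Real.one_lt_rpow (by norm_num) hs0
  have b2 : b < 2 := by
    rw [hb]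
    calc (2 : ℝ) ^ (s : ℝ) < 2 ^ (1 : ℝ) := Real.rpow_lt_rpow_of_exponent_lt (by norm_num) hs3
      _ = 2 := Real.rpow_one 2
  have b0 : 0 < b := by linarith
  obtain ⟨ζ, hζ, HE⟩ := H b b0 b2
  obtain ⟨c, hc⟩ : ∃ c : ℝ, c = min (ζ / 12) (1 / 2) := ⟨_, rfl⟩
  have c0 : 0 < c := by
    rw [hc]
    exact lt_min (by linarith) (by norm_num)
  have c1 : c ≤ ζ / 12 := by rw [hc]; exact min_le_left _ _
  have c2 : c ≤ 1 / 2 := by rw [hc]; exact min_le_right _ _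
  obtain ⟨t, w, hcov, w0, wF, wd⟩ := dimH_cov S s hs1 c c0
  have wc : ∀ n, w n ≤ c := by
    intro n
    have := wF {n}
    rwa [Finset.sum_singleton] at this
  obtain ⟨v, hv⟩ : ∃ v : ℝ, v = b⁻¹ := ⟨_, rfl⟩
  have v0 : 0 < v := by rw [hv]; positivity
  have v1 : v < 1 := by rw [hv]; exact inv_lt_one_of_one_lt₀ b1
  have vb : v * b = 1 := by rw [hv]; exact inv_mul_cancel₀ b0.ne'
  have v2 : 1 / 2 < v := by
    by_contra hn
    rw [not_lt] at hn
    have : v * b ≤ 1 / 2 * b := mul_le_mul_of_nonneg_right hn b0.le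
    linarith
  have hlev : ∀ n, ∃ m : ℕ, v ^ (m + 1) < w n ∧ w n ≤ v ^ m := fun n =>
    exists_nat_pow_near_of_lt_one (w0 n) (by linarith [wc n]) v0 v1
  choose m hm1 hm2 using hlev
  have hm0 : ∀ n, 1 ≤ m n := by
    intro n
    by_contra hn
    have h0 : m n = 0 := by omega
    have := hm1 n
    rw [h0, zero_add, pow_one] at this
    linarith [wc n]
  -- number of sets of a level
  have hcard : ∀ M : ℕ, ∀ F : Finset ℕ, (∀ n ∈ F, m n = M) → (F.card : ℝ) ≤ c * b ^ (M + 1) := by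
    intro M F hF
    have h1 : (F.card : ℝ) * v ^ (M + 1) ≤ c := by
      calc (F.card : ℝ) * v ^ (M + 1) = ∑ n ∈ F, v ^ (M + 1) := by
            rw [Finset.sum_const, nsmul_eq_mul]
        _ ≤ ∑ n ∈ F, w n := by
            refine Finset.sum_le_sum fun n hn => ?_
            have := hm1 n
            rw [hF n hn] at this
            exact this.le
        _ ≤ c := wF F
    have h2 : (v ^ (M + 1)) * b ^ (M + 1) = 1 := by rw [← mul_pow, vb, one_pow]
    calc (F.card : ℝ) = ((F.card : ℝ) * v ^ (M + 1)) * b ^ (M + 1) := by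
          rw [mul_assoc, h2, mul_one]
      _ ≤ c * b ^ (M + 1) := mul_le_mul_of_nonneg_right h1 (by positivity)
  have hfin : ∀ M : ℕ, {n | m n = M}.Finite := by
    intro M
    by_contra hinf
    obtain ⟨N, hN⟩ := exists_nat_gt (c * b ^ (M + 1))
    obtain ⟨F, hF1, hF2⟩ := Set.Infinite.exists_subset_card_eq hinf N
    have := hcard M F (fun n hn => hF1 hn)
    rw [hF2] at this
    linarith
  have hx : ∀ n, ∃ x : ℝ, 0 ≤ x ∧ ((∃ y ∈ t n, 0 ≤ y) → x ∈ t n) := by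
    intro n
    by_cases h : ∃ y ∈ t n, 0 ≤ y
    · obtain ⟨y, hy, hy0⟩ := h
      exact ⟨y, hy0, fun _ => hy⟩
    · exact ⟨0, le_rfl, fun h' => absurd h' h⟩
  choose x x0 hxt using hx
  obtain ⟨k, hk⟩ : ∃ k : ℕ → ℕ, ∀ n, k n = ⌊x n * 2 ^ m n⌋₊ := ⟨_, fun _ => rfl⟩
  obtain ⟨E, hE⟩ : ∃ E : ℕ → Finset ℕ, ∀ M, E M = (hfin M).toFinset.biUnion
    (fun n => {k n - 1, k n, k n + 1}) := ⟨_, fun _ => rfl⟩
  have hE0 : E 0 = ∅ := by
    rw [hE, Finset.eq_empty_iff_forall_notMem]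
    intro a ha
    rw [Finset.mem_biUnion] at ha
    obtain ⟨n, hn, -⟩ := ha
    rw [Set.Finite.mem_toFinset, Set.mem_ofPred_eq] at hn
    have := hm0 n
    omega
  have hEc : ∀ M, 1 ≤ M → ((E M).card : ℝ) ≤ ζ * b ^ (M - 1) := by
    intro M hM
    have h1 : (E M).card ≤ (hfin M).toFinset.card * 3 := by
      rw [hE]
      refine Finset.card_biUnion_le_card_mul _ _ _ fun n _ => ?_
      exact Finset.card_le_three
    have h2 := hcard M (hfin M).toFinset (fun n hn => by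
      rw [Set.Finite.mem_toFinset, Set.mem_ofPred_eq] at hn
      exact hn)
    obtain ⟨j, rfl⟩ : ∃ j, M = j + 1 := ⟨M - 1, by omega⟩
    rw [Nat.add_sub_cancel]
    have h3 : ((E (j + 1)).card : ℝ) ≤ ((hfin (j + 1)).toFinset.card : ℝ) * 3 := by
      exact_mod_cast h1
    have h4 : b * b ≤ 4 := by nlinarith
    have h5 : (0 : ℝ) ≤ b ^ j := by positivity
    calc ((E (j + 1)).card : ℝ) ≤ ((hfin (j + 1)).toFinset.card : ℝ) * 3 := h3
      _ ≤ (c * b ^ (j + 1 + 1)) * 3 := by linarith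
      _ = (3 * c * (b * b)) * b ^ j := by ring
      _ ≤ ζ * b ^ j := by
          refine mul_le_mul_of_nonneg_right ?_ h5
          calc 3 * c * (b * b) ≤ 3 * c * 4 := mul_le_mul_of_nonneg_left h4 (by linarith)
            _ ≤ ζ := by linarith
  obtain ⟨β, hβS, hβ0, -, hβE⟩ := HE E hE0 hEc
  obtain ⟨n, hn⟩ := Set.mem_iUnion.1 (hcov hβS)
  have hxn : x n ∈ t n := hxt n ⟨β, hn, hβ0⟩
  have hd : |β - x n| ≤ 1 / 2 ^ m n := by
    have h1 := (wd n (x n) hxn β hn).trans (hm2 n)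
    have h2 : v ^ m n = (1 / 2 ^ m n : ℝ) ^ (s : ℝ) := by
      rw [hv, hb, ← Real.rpow_neg (by norm_num), ← Real.rpow_natCast, ← Real.rpow_mul (by norm_num),
        one_div, ← Real.rpow_natCast, ← Real.rpow_neg (by norm_num),
        ← Real.rpow_mul (by norm_num)]
      congr 1
      ring
    rw [h2] at h1
    exact (Real.rpow_le_rpow_iff (abs_nonneg _) (by positivity) hs0).1 h1
  obtain ⟨a, ha, h3, h4⟩ := dimH_loc (x n) β (m n) hβ0 (x0 n) hd
  refine hβE (m n) a ?_ ⟨h3, h4⟩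
  rw [hE, Finset.mem_biUnion]
  refine ⟨n, ?_, ?_⟩
  · rw [Set.Finite.mem_toFinset, Set.mem_ofPred_eq]
  · rw [hk]
    exact ha

end Pool.Agent.H19.LW
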