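import Pool.Agent.H19.LW.Main
import Pool.Agent.H19.LW.DimH

/-!
# Module Fin (about 130 lines): countable sets

Proof. If `A` or `Θ` is empty then the set is all of `ℝ` (`Real.dimH_univ`). We may assume `ε ≤ 1`:
the set for `min ε 1` is contained in the set for `ε` (`(1+x)^(-(1+min ε 1)) ≥ (1+x)^(-(1+ε))` for
`x ≥ 0`; use `dimH_mono` and `dimH ≤ 1`, or check the hypothesis of `dim_one` for the set of `ε`
directly). `A × Θ` is countable and nonempty: enumerate it (`Set.Countable.exists_eq_range`) by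
`i ↦ (α i, θ i)`, choose `c i` by `hbad`. Apply `dim_one`; its hypothesis is `main_seq`: for
`x = q^θ nd(q α) > 0` one has `logb 2 x = θ logb 2 q + logb 2 (nd(q α))`, `|logb 2 x| = |log x|/log 2`,
so `1 + |logb 2 x| ≤ (1 + |log x|)/log 2` and
`(1 + |logb 2 x|)^(-(1+ε)) ≥ (log 2)^(1+ε) (1 + |log x|)^(-(1+ε))`; constant `(log 2)^(1+ε)/2^κ`.
-/

set_option autoImplicit false

namespace Pool.Agent.H19.LW

private theorem Fin_cmp (x ε ε' : ℝ) (hε : 0 < ε) (h1 : ε' ≤ ε) :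
    (1 / Real.log 2) ^ (-(1 + ε)) * (1 + |Real.log x|) ^ (-(1 + ε)) ≤
      (1 + |Real.log x| / Real.log 2) ^ (-(1 + ε')) := by
  have hl : 0 < Real.log 2 := Real.log_pos (by norm_num)
  have hl1 : Real.log 2 ≤ 1 := by
    have h := Real.log_two_lt_d9
    linarith
  have ha : 0 ≤ |Real.log x| := abs_nonneg _
  have hd : 0 ≤ |Real.log x| / Real.log 2 := div_nonneg ha hl.le
  have hinv : 1 ≤ 1 / Real.log 2 := by
    rw [le_div_iff₀ hl]
    linarith
  have e1 : (1 / Real.log 2) ^ (-(1 + ε)) * (1 + |Real.log x|) ^ (-(1 + ε)) =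
      ((1 / Real.log 2) * (1 + |Real.log x|)) ^ (-(1 + ε)) := by
    rw [Real.mul_rpow (by linarith) (by linarith)]
  rw [e1]
  have hle : 1 + |Real.log x| / Real.log 2 ≤ (1 / Real.log 2) * (1 + |Real.log x|) := by
    have : (1 / Real.log 2) * (1 + |Real.log x|) = 1 / Real.log 2 + |Real.log x| / Real.log 2 := by
      ring
    rw [this]
    linarith
  calc ((1 / Real.log 2) * (1 + |Real.log x|)) ^ (-(1 + ε))
      ≤ (1 + |Real.log x| / Real.log 2) ^ (-(1 + ε)) :=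
        Real.rpow_le_rpow_of_nonpos (by linarith) hle (by linarith)
    _ ≤ (1 + |Real.log x| / Real.log 2) ^ (-(1 + ε')) :=
        Real.rpow_le_rpow_of_exponent_le (by linarith) (by linarith)

theorem limits (A Θ : Set ℝ) (hA : A.Countable) (hΘ : Θ.Countable) (h01 : Θ ⊆ Set.Icc 0 1)
    (hbad : ∀ α ∈ A, ∃ c > 0, ∀ q : ℕ, 1 ≤ q → c ≤ q * |q * α - round (q * α)|) (ε : ℝ)
    (hε : 0 < ε) :
    dimH {β : ℝ | ∀ α ∈ A, ∀ θ ∈ Θ, ∃ c > 0, ∀ q : ℕ, 1 ≤ q →
        c * (1 + |Real.log ((q : ℝ) ^ θ * |q * α - round (q * α)|)|) ^ (-(1 + ε)) ≤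
          q * |q * α - round (q * α)| * |q * β - round (q * β)|} = 1 := by
  rcases (A ×ˢ Θ).eq_empty_or_nonempty with he | hne
  · have hS : {β : ℝ | ∀ α ∈ A, ∀ θ ∈ Θ, ∃ c > 0, ∀ q : ℕ, 1 ≤ q →
        c * (1 + |Real.log ((q : ℝ) ^ θ * |q * α - round (q * α)|)|) ^ (-(1 + ε)) ≤
          q * |q * α - round (q * α)| * |q * β - round (q * β)|} = Set.univ := by
      ext β
      refine ⟨fun _ => Set.mem_univ _, fun _ => ?_⟩
      intro α ha θ ht
      exact absurd (show (α, θ) ∈ A ×ˢ Θ from ⟨ha, ht⟩) (by rw [he]; exact Set.notMem_empty _)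
    rw [hS]
    exact Real.dimH_univ
  obtain ⟨f, hf⟩ := (hA.prod hΘ).exists_eq_range hne
  have hmem : ∀ i, f i ∈ A ×ˢ Θ := fun i => by
    rw [hf]
    exact Set.mem_range_self i
  have hbad' : ∀ i, ∃ c > 0, ∀ q : ℕ, 1 ≤ q →
      c ≤ q * |q * (f i).1 - round (q * (f i).1)| := fun i => hbad _ (hmem i).1
  choose c hc0 hc using hbad'
  have hθ : ∀ i, (f i).2 ∈ Set.Icc (0 : ℝ) 1 := fun i => h01 (hmem i).2
  have hε' : 0 < min ε 1 := lt_min hε one_pos
  apply dim_one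
  intro g g0 g2
  obtain ⟨ζ, hζ, h⟩ := main_seq (min ε 1) hε' (min_le_right _ _) (fun i => (f i).1)
    (fun i => (f i).2) c hc0 hc (fun i => (hθ i).1) (fun i => (hθ i).2) g g0 g2
  refine ⟨ζ, hζ, fun E hE0 hE => ?_⟩
  obtain ⟨β, h1, h2, h3, h4⟩ := h E hE0 hE
  refine ⟨β, ?_, h2, h3, h4⟩
  intro α ha θ ht
  have hm : (α, θ) ∈ Set.range f := by
    rw [← hf]
    exact ⟨ha, ht⟩
  obtain ⟨i, hi⟩ := hm
  have hi1 : (f i).1 = α := by rw [hi]
  have hi2 : (f i).2 = θ := by rw [hi]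
  obtain ⟨κ, hκ⟩ := h1 i
  have hl : 0 < Real.log 2 := Real.log_pos (by norm_num)
  have hpow : (0 : ℝ) < 2 ^ κ := by positivity
  refine ⟨(1 / Real.log 2) ^ (-(1 + ε)) / 2 ^ κ,
    div_pos (Real.rpow_pos_of_pos (by positivity) _) hpow, fun q hq => ?_⟩
  have hq1 := hκ q hq
  have hcq := hc i q hq
  simp only [hi1, hi2] at hq1 hcq
  have hq0 : (0 : ℝ) < q := by exact_mod_cast hq
  have hnd : 0 < |q * α - round (q * α)| := by
    by_contra hcon
    have h0 : |q * α - round (q * α)| = 0 := le_antisymm (not_lt.1 hcon) (abs_nonneg _)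
    rw [h0, mul_zero] at hcq
    exact absurd hcq (not_le.2 (hc0 i))
  have hlog : θ * Real.logb 2 q + Real.logb 2 (nd (q * α)) =
      Real.log ((q : ℝ) ^ θ * |q * α - round (q * α)|) / Real.log 2 := by
    have e1 : Real.log ((q : ℝ) ^ θ * |q * α - round (q * α)|) =
        θ * Real.log q + Real.log |q * α - round (q * α)| := by
      rw [Real.log_mul (Real.rpow_pos_of_pos hq0 θ).ne' hnd.ne', Real.log_rpow hq0]
    rw [e1]
    show θ * (Real.log q / Real.log 2) + Real.log |q * α - round (q * α)| / Real.log 2 = _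
    ring
  have habs : |θ * Real.logb 2 q + Real.logb 2 (nd (q * α))| =
      |Real.log ((q : ℝ) ^ θ * |q * α - round (q * α)|)| / Real.log 2 := by
    rw [hlog, abs_div, abs_of_pos hl]
  rw [habs] at hq1
  have hcmp := Fin_cmp ((q : ℝ) ^ θ * |q * α - round (q * α)|) ε (min ε 1) hε (min_le_left _ _)
  have hfin : (1 / Real.log 2) ^ (-(1 + ε)) / 2 ^ κ *
      (1 + |Real.log ((q : ℝ) ^ θ * |q * α - round (q * α)|)|) ^ (-(1 + ε)) ≤
      (1 + |Real.log ((q : ℝ) ^ θ * |q * α - round (q * α)|)| / Real.log 2) ^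
        (-(1 + min ε 1)) / 2 ^ κ := by
    rw [div_mul_eq_mul_div]
    exact div_le_div_of_nonneg_right hcmp hpow.le
  calc _ ≤ _ := hfin
    _ ≤ nd (q * β) * (q * nd (q * α)) := hq1
    _ = q * |q * α - round (q * α)| * |q * β - round (q * β)| := by
        simp only [nd]
        ring

end Pool.Agent.H19.LW
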