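import Pool.Agent.H19.LW.Tree

/-!
# Module Rec (about 80 lines): the number of the killed children

Proof. `Bd K m` is finite and every `a ∈ Bd K m` has an `e` with `Ke e a`; let `F` be the finite set
of the chosen `e`. For `e ∈ F` the set `A e = {a ∈ Bd K m | Ke e a}` is the union over
`a₀ ∈ G K (b e)` of its parts with `a / 2^(m+1-b e) = a₀` (by `anc` for `a/2 ∈ G K m`:
`a / 2^(m+1-b) = (a/2) / 2^(m-b)`), so `card (A e) ≤ card (G K (b e)) * cc e`, and
`card (G K (b e)) ≤ card (G K m) / (2(1-η))^(m-b e)` by `hG`. Sum over `e ∈ F` and use `hs F`.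
-/

set_option autoImplicit false

namespace Pool.Agent.H19.LW

theorem rec_count (K : ℕ → ℕ → Prop) (η : ℝ) (h0 : 0 < η) (h1 : η < 1 / 2) (m : ℕ)
    (hG : Gr K η m) {ι : Type} (Ke : ι → ℕ → Prop) (b : ι → ℕ) (cc : ι → ℝ)
    (hK : ∀ a, K (m + 1) a → ∃ e, Ke e a) (hb : ∀ e, b e ≤ m) (hc0 : ∀ e, 0 ≤ cc e)
    (hc : ∀ e, ∀ a₀ ∈ G K (b e), ∀ A : Finset ℕ,
      (∀ a ∈ A, a ∈ Bd K m ∧ Ke e a ∧ a / 2 ^ (m + 1 - b e) = a₀) → (A.card : ℝ) ≤ cc e)
    (hs : ∀ F : Finset ι, ∑ e ∈ F, cc e / (2 * (1 - η)) ^ (m - b e) ≤ 2 * η) :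
    ((Bd K m).card : ℝ) ≤ 2 * η * (G K m).card := by
  classical
  have hmem : ∀ a ∈ Bd K m, a / 2 ∈ G K m ∧ K (m + 1) a := by
    intro a ha
    exact (Finset.mem_filter.1 ha).2
  have hex : ∀ a ∈ Bd K m, ∃ e, Ke e a := fun a ha => hK a (hmem a ha).2
  choose e he using hex
  set F : Finset ι := (Bd K m).attach.image (fun x => e x.1 x.2) with hF
  set A : ι → Finset ℕ := fun i => (Bd K m).filter (fun a => Ke i a) with hA
  have hsub : Bd K m ⊆ F.biUnion A := by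
    intro a ha
    refine Finset.mem_biUnion.2 ⟨e a ha, ?_, ?_⟩
    · exact Finset.mem_image.2 ⟨⟨a, ha⟩, Finset.mem_attach _ _, rfl⟩
    · exact Finset.mem_filter.2 ⟨ha, he a ha⟩
  have hcard : (Bd K m).card ≤ ∑ i ∈ F, (A i).card :=
    (Finset.card_le_card hsub).trans Finset.card_biUnion_le
  have hη : 0 < 2 * (1 - η) := by linarith
  have hAi : ∀ i, ((A i).card : ℝ) ≤ (G K m).card * (cc i / (2 * (1 - η)) ^ (m - b i)) := by
    intro i
    have hmap : ∀ a ∈ A i, a / 2 ^ (m + 1 - b i) ∈ G K (b i) := by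
      intro a ha
      have ha1 := (hmem a (Finset.mem_filter.1 ha).1).1
      have h2 := anc ha1 (hb i)
      have h3 : a / 2 / 2 ^ (m - b i) = a / 2 ^ (m + 1 - b i) := by
        rw [Nat.div_div_eq_div_mul, ← pow_succ']
        congr 2
        have := hb i
        omega
      rwa [h3] at h2
    have h4 := Finset.card_eq_sum_card_fiberwise (f := fun a => a / 2 ^ (m + 1 - b i))
      (s := A i) (t := G K (b i)) hmap
    have h5 : ((A i).card : ℝ) ≤ ∑ _a₀ ∈ G K (b i), cc i := by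
      rw [h4]
      push_cast
      refine Finset.sum_le_sum fun a₀ ha₀ => ?_
      refine hc i a₀ ha₀ _ ?_
      intro a ha
      obtain ⟨ha1, ha2⟩ := Finset.mem_filter.1 ha
      obtain ⟨ha3, ha4⟩ := Finset.mem_filter.1 ha1
      exact ⟨ha3, ha4, ha2⟩
    rw [Finset.sum_const, nsmul_eq_mul] at h5
    have h6 := hG (b i) (hb i)
    have hp : 0 < (2 * (1 - η)) ^ (m - b i) := pow_pos hη _
    have h7 : ((G K (b i)).card : ℝ) ≤ (G K m).card / (2 * (1 - η)) ^ (m - b i) := by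
      rw [le_div_iff₀ hp]
      exact h6
    calc ((A i).card : ℝ) ≤ (G K (b i)).card * cc i := h5
      _ ≤ (G K m).card / (2 * (1 - η)) ^ (m - b i) * cc i :=
        mul_le_mul_of_nonneg_right h7 (hc0 i)
      _ = (G K m).card * (cc i / (2 * (1 - η)) ^ (m - b i)) := by ring
  calc ((Bd K m).card : ℝ) ≤ ((∑ i ∈ F, (A i).card : ℕ) : ℝ) := by exact_mod_cast hcard
    _ = ∑ i ∈ F, ((A i).card : ℝ) := by push_cast; rfl
    _ ≤ ∑ i ∈ F, (G K m).card * (cc i / (2 * (1 - η)) ^ (m - b i)) :=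
      Finset.sum_le_sum fun i _ => hAi i
    _ = (G K m).card * ∑ i ∈ F, cc i / (2 * (1 - η)) ^ (m - b i) := by rw [Finset.mul_sum]
    _ ≤ (G K m).card * (2 * η) := mul_le_mul_of_nonneg_left (hs F) (Nat.cast_nonneg _)
    _ = 2 * η * (G K m).card := by ring

end Pool.Agent.H19.LW
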